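import Pool.Agent.Q100.Buo

/-!
# `ℓ_p` is not sequentially Buo-complete for any `1 < p < ∞`

The definitions (order convergence, Buo-convergence, Buo-Cauchy sequences, the vector lattice
`ℓ_p`) are in `Pool/Agent/Q100/BuoDefs.lean`.
-/

set_option autoImplicit false
open Filter Topology

namespace Pool.Agent.Results.MP_55c50e_an.NotBuoComplete

open Q100.Buo

/-- coding of the coordinates -/
noncomputable def code : ℕ ≃ Idx := (Denumerable.eqv Idx).symm

/-- the sequence in `ℓ_p` -/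
noncomputable def xs {p : ℝ} (hp : 1 < p) (n : ℕ) : EllP p :=
  ⟨fun j => X p n (code j), (mem_ellP (by linarith) _).mpr
    ((X_summable hp n).comp_injective code.injective)⟩

lemma coe_abs {p : ℝ} (x : EllP p) : ((|x| : EllP p) : ℕ → ℝ) = |(x : ℕ → ℝ)| := rfl

lemma coe_le {p : ℝ} (x y : EllP p) : x ≤ y ↔ ∀ j, (x : ℕ → ℝ) j ≤ (y : ℕ → ℝ) j := Iff.rfl

lemma buoCauchy_xs {p : ℝ} (hp : 1 < p) : BuoCauchy (xs hp) := by
  intro ν hν
  have hp0 : 0 < p := by linarith
  -- the array of `p`-th powers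
  set f : ℕ × ℕ → ℝ := fun kj => |X p (ν kj.1) (code kj.2) - X p (ν (kj.1 + 1)) (code kj.2)| ^ p with hf
  have hnn : 0 ≤ f := fun q => Real.rpow_nonneg (abs_nonneg _) _
  have hmono : ∀ k, ν k ≤ ν (k + 1) := fun k => (hν (Nat.lt_succ_self k)).le
  have hs1 : ∀ k, Summable (fun j => f (k, j)) := fun k =>
    ((diff_summable hp (hmono k)).1).comp_injective code.injective
  have hle : ∀ k, ∑' j, f (k, j) ≤ F p (ν (k + 1)) - F p (ν k) := by
    intro k
    have h1 : ∑' j, f (k, j) = ∑' q : Idx, |X p (ν k) q - X p (ν (k + 1)) q| ^ p :=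
      code.tsum_eq (fun q : Idx => |X p (ν k) q - X p (ν (k + 1)) q| ^ p)
    rw [h1]
    exact (diff_summable hp (hmono k)).2
  have hs2 : Summable (fun k => ∑' j, f (k, j)) := by
    refine summable_of_sum_range_le (c := ∑' i : ℕ, CC p * (1 / ((i : ℝ) + 1) ^ 2))
      (fun k => tsum_nonneg (fun j => hnn _)) (fun K => ?_)
    calc ∑ k ∈ Finset.range K, ∑' j, f (k, j)
        ≤ ∑ k ∈ Finset.range K, (F p (ν (k + 1)) - F p (ν k)) := Finset.sum_le_sum (fun k _ => hle k)
      _ = F p (ν K) - F p (ν 0) := Finset.sum_range_sub (fun k => F p (ν k)) K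
      _ ≤ F p (ν K) := by linarith [F_nonneg hp (ν 0)]
      _ ≤ _ := F_le hp (ν K)
  have hs : Summable f := (summable_prod_of_nonneg hnn).mpr ⟨hs1, hs2⟩
  have hs' : Summable (fun jk : ℕ × ℕ => f (jk.2, jk.1)) := hs.prod_symm
  have hcol := (summable_prod_of_nonneg (f := fun jk : ℕ × ℕ => f (jk.2, jk.1))
    (fun q => hnn (q.2, q.1))).mp hs'
  have hcol1 : ∀ j, Summable (fun k => f (k, j)) := hcol.1
  -- tails
  set t : ℕ → ℕ → ℝ := fun m j => ∑' k, f (k + m, j) with ht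
  have hts : ∀ m j, Summable (fun k => f (k + m, j)) := fun m j =>
    (summable_nat_add_iff m).mpr (hcol1 j)
  have htnn : ∀ m j, 0 ≤ t m j := fun m j => tsum_nonneg (fun k => hnn _)
  have htanti : ∀ m j, t (m + 1) j ≤ t m j := by
    intro m j
    have h1 : t m j = f (0 + m, j) + ∑' k, f (k + 1 + m, j) := (hts m j).tsum_eq_zero_add
    have h2 : ∑' k, f (k + 1 + m, j) = t (m + 1) j := by
      simp only [ht]
      refine tsum_congr (fun k => ?_)
      rw [show k + 1 + m = k + (m + 1) by ring]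
    rw [h1, h2]
    linarith [show 0 ≤ f (0 + m, j) from hnn _]
  have htlim : ∀ j, Tendsto (fun m => t m j) atTop (𝓝 0) := fun j =>
    tendsto_sum_nat_add (fun k => f (k, j))
  have ht0s : Summable (fun j => t 0 j) := by
    refine hcol.2.congr (fun j => ?_)
    simp [ht]
  have htle0 : ∀ m j, t m j ≤ t 0 j := by
    intro m j
    induction m with
    | zero => exact le_rfl
    | succ m ih => exact (htanti m j).trans ih
  have hpow : ∀ m j, |t m j ^ (1 / p)| ^ p = t m j := by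
    intro m j
    rw [abs_of_nonneg (Real.rpow_nonneg (htnn m j) _), ← Real.rpow_mul (htnn m j),
      one_div_mul_cancel hp0.ne', Real.rpow_one]
  let z : ℕ → EllP p := fun m => ⟨fun j => t m j ^ (1 / p), (mem_ellP hp0 _).mpr (by
    simp only [hpow]
    exact Summable.of_nonneg_of_le (fun j => htnn m j) (fun j => htle0 m j) ht0s)⟩
  have hp1 : 0 ≤ 1 / p := by positivity
  refine ⟨z, ?_, ?_, ?_⟩
  · refine antitone_nat_of_succ_le (fun m => ?_)
    rw [coe_le]
    intro j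
    exact Real.rpow_le_rpow (htnn _ _) (htanti m j) hp1
  · constructor
    · rintro _ ⟨m, rfl⟩
      rw [coe_le]
      intro j
      exact Real.rpow_nonneg (htnn m j) _
    · intro w hw
      rw [coe_le]
      intro j
      have h1 : Tendsto (fun m => t m j ^ (1 / p)) atTop (𝓝 (0 ^ (1 / p))) :=
        (htlim j).rpow_const (Or.inr hp1)
      rw [Real.zero_rpow (by positivity)] at h1
      refine ge_of_tendsto' h1 (fun m => ?_)
      exact (coe_le _ _).mp (hw ⟨m, rfl⟩) j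
  · intro m
    refine ⟨m, fun k hk => ?_⟩
    rw [coe_le]
    intro j
    rw [coe_abs]
    show |X p (ν (k + 1)) (code j) - X p (ν k) (code j) - 0| ≤ t m j ^ (1 / p)
    rw [sub_zero, abs_sub_comm]
    have h1 : |X p (ν k) (code j) - X p (ν (k + 1)) (code j)|
        = (f (k, j)) ^ (1 / p) := by
      rw [hf]
      simp only
      rw [← Real.rpow_mul (abs_nonneg _), mul_one_div_cancel hp0.ne', Real.rpow_one]
    rw [h1]
    refine Real.rpow_le_rpow (hnn _) ?_ hp1
    have h2 := (hts m j).le_tsum (k - m) (fun l _ => hnn _)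
    rw [show k - m + m = k by omega] at h2
    exact h2

/-- the sequence is not order bounded -/
lemma not_bounded {p : ℝ} (hp : 1 < p) : ¬ ∃ y : EllP p, ∀ n, |xs hp n| ≤ y := by
  rintro ⟨y, hy⟩
  have hp0 : 0 < p := by linarith
  have hys := (mem_ellP hp0 _).mp y.2
  have h1 : Summable (fun q : Idx => |(y : ℕ → ℝ) (code.symm q)| ^ p) :=
    hys.comp_injective code.symm.injective
  refine not_summable_amp (Summable.of_nonneg_of_le (fun q => amp_nonneg q) (fun q => ?_) h1)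
  rcases q with ⟨i, r, m⟩
  by_cases h : r < i + 1 ∧ m < 2 ^ r
  · have h2 := (coe_le _ _).mp (hy (2 ^ (i + 1) + (2 * m + 1) * 2 ^ (i - r))) (code.symm (i, (r, m)))
    rw [coe_abs] at h2
    have h3 : |X p (2 ^ (i + 1) + (2 * m + 1) * 2 ^ (i - r)) (code (code.symm (i, (r, m))))|
        ≤ (y : ℕ → ℝ) (code.symm (i, (r, m))) := h2
    rw [Equiv.apply_symm_apply, X_center i r m h.1 h.2,
      abs_of_nonneg (Real.rpow_nonneg (amp_nonneg _) _)] at h3
    have h4 := Real.rpow_le_rpow (Real.rpow_nonneg (amp_nonneg _) _) h3 hp0.le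
    rw [← Real.rpow_mul (amp_nonneg _), one_div_mul_cancel hp0.ne', Real.rpow_one] at h4
    refine h4.trans ?_
    refine Real.rpow_le_rpow ?_ (le_abs_self _) hp0.le
    exact (Real.rpow_nonneg (amp_nonneg _) _).trans h3
  · have h2 : amp (i, (r, m)) = 0 := by
      unfold amp
      rw [if_neg h]
    rw [h2]
    exact Real.rpow_nonneg (abs_nonneg _) _

lemma not_order {p : ℝ} (hp : 1 < p) : ¬ ∃ x₀ : EllP p, OrderTendsto (xs hp) x₀ := by
  rintro ⟨x₀, z, -, -, hz⟩
  obtain ⟨N, hN⟩ := hz 0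
  apply not_bounded hp
  -- a bound for all terms
  refine ⟨(∑ n ∈ Finset.range N, |xs hp n|) + (z 0 + |x₀|), fun n => ?_⟩
  rw [coe_le]
  intro j
  have hsum : ((∑ n ∈ Finset.range N, |xs hp n| : EllP p) : ℕ → ℝ) j
      = ∑ n ∈ Finset.range N, |(xs hp n : ℕ → ℝ) j| := by
    rw [AddSubgroup.val_finsetSum, Finset.sum_apply]
    rfl
  show |(xs hp n : ℕ → ℝ) j| ≤ ((∑ n ∈ Finset.range N, |xs hp n| : EllP p) : ℕ → ℝ) j
    + ((z 0 : ℕ → ℝ) j + |(x₀ : ℕ → ℝ) j|)
  rw [hsum]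
  have hz0 : 0 ≤ (z 0 : ℕ → ℝ) j := by
    have := (coe_le _ _).mp (hN N le_rfl) j
    rw [coe_abs] at this
    exact (abs_nonneg _).trans this
  by_cases hn : n < N
  · have h1 := Finset.single_le_sum (f := fun n => |(xs hp n : ℕ → ℝ) j|)
      (fun i _ => abs_nonneg _) (Finset.mem_range.mpr hn)
    have := abs_nonneg ((x₀ : ℕ → ℝ) j)
    linarith
  · have h1 := (coe_le _ _).mp (hN n (not_lt.mp hn)) j
    rw [coe_abs] at h1
    have h2 : |(xs hp n : ℕ → ℝ) j - (x₀ : ℕ → ℝ) j| ≤ (z 0 : ℕ → ℝ) j := h1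
    have h3 : 0 ≤ ∑ n ∈ Finset.range N, |(xs hp n : ℕ → ℝ) j| :=
      Finset.sum_nonneg (fun i _ => abs_nonneg _)
    have h4 : |(xs hp n : ℕ → ℝ) j| ≤ |(xs hp n : ℕ → ℝ) j - (x₀ : ℕ → ℝ) j| + |(x₀ : ℕ → ℝ) j| := by
      have := abs_add_le ((xs hp n : ℕ → ℝ) j - (x₀ : ℕ → ℝ) j) ((x₀ : ℕ → ℝ) j)
      simpa using this
    linarith

/-- For every `1 < p < ∞` the space `ℓ_p` is not sequentially Buo-complete: there is a Buo-Cauchy
sequence in `ℓ_p` which is not order bounded, has no order limit and no Buo limit. -/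
theorem result : ∀ p : ℝ, 1 < p →
    (∃ x : ℕ → EllP p, BuoCauchy x ∧ (¬ ∃ y : EllP p, ∀ n, |x n| ≤ y) ∧
      (¬ ∃ x₀ : EllP p, OrderTendsto x x₀) ∧ (¬ ∃ x₀ : EllP p, BuoTendsto x x₀)) ∧
    ¬ SeqBuoComplete (EllP p) := by
  intro p hp
  have hB : ¬ ∃ x₀ : EllP p, BuoTendsto (xs hp) x₀ := by
    rintro ⟨x₀, -, y, -, hy⟩
    exact not_bounded hp ⟨y, hy⟩
  exact ⟨⟨xs hp, buoCauchy_xs hp, not_bounded hp, not_order hp, hB⟩,
    fun h => hB (h _ (buoCauchy_xs hp))⟩

end Pool.Agent.Results.MP_55c50e_an.NotBuoComplete
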